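import Mathlib
import Pool.Agent.U798.BV.Spec

set_option autoImplicit false

namespace Pool.Agent.U491.BV

open Complex

/-- a prime `r` dividing `l + 1`, where `8 ∣ l + 1`, is a square modulo the prime `l` -/
lemma leg_one (r l : ℕ) [hr : Fact r.Prime] [hl : Fact l.Prime] (h8 : 8 ∣ l + 1) (h : r ∣ l + 1) :
    legendreSym l r = 1 := by
  have hl8 : l % 8 = 7 := by omega
  have hl2 : l ≠ 2 := by omega
  have hrl : ¬ (l ∣ r) := by
    intro hd
    have h1 : l = r := (Nat.prime_dvd_prime_iff_eq hl.out hr.out).mp hd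
    subst h1
    have h2 : l ∣ 1 := (Nat.dvd_add_right (dvd_refl l)).mp h
    have := hl.out.one_lt
    have := Nat.le_of_dvd one_pos h2
    omega
  by_cases hr2 : r = 2
  · subst hr2
    have h1 : IsSquare (2 : ZMod l) := (ZMod.exists_sq_eq_two_iff hl2).mpr (Or.inr hl8)
    rw [legendreSym.eq_one_iff']
    · exact_mod_cast h1
    · intro h0
      exact hrl ((ZMod.natCast_eq_zero_iff _ _).mp (by exact_mod_cast h0))
  · have hodd : r % 2 = 1 := (hr.out.eq_two_or_odd).resolve_left hr2
    have h1 := legendreSym.quadratic_reciprocity' (p := r) (q := l) hr2 hl2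
    have h2 : legendreSym r (l : ℤ) = legendreSym r (-1) := by
      have h3 : ((l : ℤ) : ZMod r) = ((-1 : ℤ) : ZMod r) := by
        have h4 : ((l + 1 : ℕ) : ZMod r) = 0 := (ZMod.natCast_eq_zero_iff _ _).mpr h
        push_cast at h4 ⊢
        linear_combination h4
      unfold legendreSym
      rw [h3]
    rw [h1, h2, legendreSym.at_neg_one hr2, ZMod.χ₄_eq_neg_one_pow hodd, ← pow_add]
    have h5 : l / 2 = 2 * (l / 4) + 1 := by omega
    have h6 : r / 2 * (l / 2) + r / 2 = 2 * (r / 2 * (l / 4 + 1)) := by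
      rw [h5]; ring
    rw [h6, pow_mul]
    norm_num

lemma quad_one (r l : ℕ) [hr : Fact r.Prime] [hl : Fact l.Prime] (h8 : 8 ∣ l + 1) (h : r ∣ l + 1) :
    quadraticChar (ZMod l) (r : ZMod l) = 1 := by
  have := leg_one r l h8 h
  unfold legendreSym at this
  exact_mod_cast this

/-- the points -/
noncomputable def pt (l : ℕ) (x : ZMod l) : ℝ := (x.val : ℝ) / l

lemma pt_mul (l : ℕ) [NeZero l] (r : ℕ) (x : ZMod l) :
    ∃ m : ℤ, (r : ℝ) * pt l x = pt l ((r : ZMod l) * x) + m := by
  have hl : (l : ℝ) ≠ 0 := Nat.cast_ne_zero.mpr (NeZero.ne l)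
  have h1 : (((r : ZMod l) * x).val : ℕ) ≡ r * x.val [MOD l] := by
    rw [← ZMod.natCast_eq_natCast_iff]
    push_cast
    simp
  have h2 : (((r : ZMod l) * x).val : ℤ) ≡ (r * x.val : ℕ) [ZMOD l] := Int.natCast_modEq_iff.mpr h1
  obtain ⟨m, hm⟩ := h2.dvd
  refine ⟨m, ?_⟩
  unfold pt
  have h3 : ((r * x.val : ℕ) : ℝ) - (((r : ZMod l) * x).val : ℝ) = l * m := by exact_mod_cast hm
  push_cast at h3
  field_simp
  linarith

lemma sum_sin_ne (l : ℕ) [hl : Fact l.Prime] (h8 : 8 ∣ l + 1) :
    ∑ x : {x : ZMod l // quadraticChar (ZMod l) x = 1}, Real.sin (2 * Real.pi * pt l x.1) ≠ 0 := by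
  classical
  intro h0
  have hl2 : l ≠ 2 := by omega
  have hlpos : (0 : ℝ) < l := Nat.cast_pos.mpr hl.out.pos
  set ψ : AddChar (ZMod l) ℂ := ZMod.stdAddChar with hψ
  set χ : MulChar (ZMod l) ℂ := (quadraticChar (ZMod l)).ringHomComp (Int.castRingHom ℂ) with hχ
  have hchar : ringChar (ZMod l) ≠ 2 := by rwa [ZMod.ringChar_zmod_n]
  have hχ1 : χ ≠ 1 := by
    intro h
    obtain ⟨a, ha⟩ := quadraticChar_exists_neg_one hchar
    have h1 : χ a = 1 := by
      rw [h]
      apply MulChar.one_apply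
      by_contra hna
      rw [MulChar.map_nonunit _ hna] at ha
      norm_num at ha
    rw [hχ, MulChar.ringHomComp_apply, ha] at h1
    norm_num at h1
  have hχ2 : χ.IsQuadratic := (quadraticChar_isQuadratic (ZMod l)).comp _
  have hψp : ψ.IsPrimitive := ZMod.isPrimitive_stdAddChar l
  have hg := gaussSum_sq hχ1 hχ2 hψp
  have hneg : χ (-1) = -1 := by
    have h1 : quadraticChar (ZMod l) (-1) = -1 := by
      have h2 := quadraticChar_neg_one hchar
      rw [h2, ZMod.card]
      rw [ZMod.χ₄_nat_three_mod_four (by omega)]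
    rw [hχ, MulChar.ringHomComp_apply, h1]
    norm_num
  rw [hneg, ZMod.card] at hg
  -- imaginary parts
  have him : ∀ x : ZMod l, (ψ x).im = Real.sin (2 * Real.pi * pt l x) := by
    intro x
    have h1 : ψ x = Complex.exp (((2 * Real.pi * pt l x : ℝ) : ℂ) * Complex.I) := by
      have h2 := ZMod.stdAddChar_coe (N := l) (x.val : ℤ)
      have h3 : (((x.val : ℤ)) : ZMod l) = x := by simp
      rw [h3] at h2
      rw [hψ, h2]
      congr 1
      unfold pt
      push_cast
      ring
    rw [h1, Complex.exp_ofReal_mul_I_im]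
  have hsum0 : ∑ x : ZMod l, ψ x = 0 := by
    apply AddChar.sum_eq_zero_of_ne_one
    intro h
    have := hψp (a := 1) one_ne_zero
    apply this
    rw [h]
    ext x
    simp
  have hS0 : ∑ x : ZMod l, Real.sin (2 * Real.pi * pt l x) = 0 := by
    have := congrArg Complex.im hsum0
    rw [Complex.im_sum] at this
    simpa [him] using this
  have hS1 : (gaussSum χ ψ).im =
      ∑ x : ZMod l, ((quadraticChar (ZMod l) x : ℤ) : ℝ) * Real.sin (2 * Real.pi * pt l x) := by
    unfold gaussSum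
    rw [Complex.im_sum]
    refine Finset.sum_congr rfl fun x _ => ?_
    rw [hχ, MulChar.ringHomComp_apply]
    have : ((Int.castRingHom ℂ) (quadraticChar (ZMod l) x)) =
        (((quadraticChar (ZMod l) x : ℤ) : ℝ) : ℂ) := by simp
    rw [this, Complex.im_ofReal_mul, him]
  have hpt0 : Real.sin (2 * Real.pi * pt l 0) = 0 := by
    simp [pt]
  have hS2 : (gaussSum χ ψ).im = 0 := by
    have h1 : (gaussSum χ ψ).im + ∑ x : ZMod l, Real.sin (2 * Real.pi * pt l x) = 2 * ∑ x : ZMod l,
        (if quadraticChar (ZMod l) x = 1 then Real.sin (2 * Real.pi * pt l x) else 0) := by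
      rw [hS1, ← Finset.sum_add_distrib, Finset.mul_sum]
      refine Finset.sum_congr rfl fun x _ => ?_
      by_cases hx : x = 0
      · subst hx
        rw [hpt0]; simp
      · rcases quadraticChar_dichotomy hx with h | h
        · rw [h]; simp; ring
        · rw [h]; simp
    rw [hS0, add_zero] at h1
    rw [h1, ← Finset.sum_filter]
    have h2 : ∑ x ∈ Finset.univ.filter (fun x : ZMod l => quadraticChar (ZMod l) x = 1),
        Real.sin (2 * Real.pi * pt l x) =
        ∑ x : {x : ZMod l // quadraticChar (ZMod l) x = 1}, Real.sin (2 * Real.pi * pt l x.1) := by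
      refine Finset.sum_subtype _ (fun x => ?_) _
      simp
    rw [h2, h0, mul_zero]
  have h3 := congrArg Complex.re hg
  rw [sq, Complex.mul_re, hS2] at h3
  simp at h3
  nlinarith [mul_self_nonneg (gaussSum χ ψ).re]

/-- multiplication by a prime divisor of `l + 1` on the squares -/
noncomputable def mulPerm (r l : ℕ) [hr : Fact r.Prime] [hl : Fact l.Prime] (h8 : 8 ∣ l + 1)
    (h : r ∣ l + 1) : Equiv.Perm {x : ZMod l // quadraticChar (ZMod l) x = 1} :=
  Equiv.ofBijective (fun x => ⟨(r : ZMod l) * x.1, by rw [map_mul, quad_one r l h8 h, x.2, one_mul]⟩) (by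
    have hr0 : (r : ZMod l) ≠ 0 := by
      intro h0
      have h1 := quad_one r l h8 h
      rw [h0] at h1
      simp at h1
    have hinj : Function.Injective (fun x : {x : ZMod l // quadraticChar (ZMod l) x = 1} =>
        (⟨(r : ZMod l) * x.1, by rw [map_mul, quad_one r l h8 h, x.2, one_mul]⟩ :
          {x : ZMod l // quadraticChar (ZMod l) x = 1})) := by
      intro x y hxy
      have h2 := congrArg Subtype.val hxy
      exact Subtype.ext (mul_left_cancel₀ hr0 h2)
    exact hinj.bijective_of_finite)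

theorem t_ORB : Pool.Agent.U798.BV.S_ORB := by
  classical
  intro p q hp hq
  have : Fact p.Prime := ⟨hp⟩
  have : Fact q.Prime := ⟨hq⟩
  have : NeZero (8 * p * q) := ⟨by
    have := hp.pos; have := hq.pos; positivity⟩
  obtain ⟨l, -, hlp, hl⟩ := Nat.forall_exists_prime_gt_and_eq_mod (q := 8 * p * q) (a := -1)
    (isUnit_one.neg) 0
  have : Fact l.Prime := ⟨hlp⟩
  have hd : 8 * p * q ∣ l + 1 := by
    rw [← ZMod.natCast_eq_zero_iff]
    push_cast
    rw [hl]
    ring
  have h8 : 8 ∣ l + 1 := dvd_trans ⟨p * q, by ring⟩ hd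
  have hpd : p ∣ l + 1 := dvd_trans ⟨8 * q, by ring⟩ hd
  have hqd : q ∣ l + 1 := dvd_trans ⟨8 * p, by ring⟩ hd
  let T := {x : ZMod l // quadraticChar (ZMod l) x = 1}
  let e : T ≃ Fin (Fintype.card T) := Fintype.equivFin T
  refine ⟨Fintype.card T, fun i => pt l (e.symm i).1, e.permCongr (mulPerm p l h8 hpd),
    e.permCongr (mulPerm q l h8 hqd), ?_, ?_, ?_, ?_⟩
  · exact Fintype.card_pos_iff.mpr ⟨⟨1, by simp⟩⟩
  · intro i
    obtain ⟨m, hm⟩ := pt_mul l p (e.symm i).1
    refine ⟨m, ?_⟩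
    rw [hm]
    congr 2
    simp [Equiv.permCongr_apply, mulPerm]
  · intro i
    obtain ⟨m, hm⟩ := pt_mul l q (e.symm i).1
    refine ⟨m, ?_⟩
    rw [hm]
    congr 2
    simp [Equiv.permCongr_apply, mulPerm]
  · have h1 := sum_sin_ne l h8
    intro h2
    apply h1
    rw [← h2]
    exact (Equiv.sum_comp e.symm (fun x : T => Real.sin (2 * Real.pi * pt l x.1))).symm

end Pool.Agent.U491.BV
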